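import Mathlib

/-!
# PROJECT W (MP_a78e8f_nt): common definitions

Elliott-Halberstam with the saving `(log x)^(-1/2+o(1))` for almost all residues `a` in every interval of
length `x^ε`.  Notation: `L = log x`, `f = hR R` with `R = ⌊L^20⌋`, `ee(t) = exp(2 π i t)`.
`FF f N θ = ∑_{n ≤ N} f(n) ee(n θ)`, `S2 f N = ∑_{n ≤ N} f(n)^2`, `ZZ S t = ∑_{k ∈ S} k^{-1/2 + i t}`,
`Mel g t = ∫_0^∞ g(θ) θ^{-1/2 - i t} dθ`, `II S g = ∫_0^∞ |∑_{k ∈ S} g(k y)|^2 dy` are those of EHB.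
-/

set_option autoImplicit false

namespace Pool.Agent.H35.W

open Finset MeasureTheory

/-- the primes of the block `(P, 2P]` -/
def pb (P : ℕ) : Finset ℕ := (Ioc P (2 * P)).filter Nat.Prime

/-- `k` has no prime factor in the blocks `pb (P 2^i)`, `i < J`, i.e. in `(P, P 2^J]` -/
def Rk (P J k : ℕ) : Prop := ∀ i, i < J → ∀ p ∈ pb (P * 2 ^ i), ¬ p ∣ k

open Classical in
/-- the `k ≤ y` without prime factor in `(P, P 2^J]` -/
noncomputable def rgh (P J y : ℕ) : Finset ℕ := (Icc 1 y).filter (fun k => Rk P J k)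

end Pool.Agent.H35.W
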